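import Pool.Agent.Q167.SL.StmB

/-! Job SL-BLAN of project SL (helper167): Landau's inequality. -/

namespace Pool.Agent.Q225.SL

open Pool.Agent.Q167.SL

theorem key (a b A A₂ h : ℝ) (f f₁ f₂ : ℝ → ℂ) (hh : 0 < h)
    (d1 : ∀ τ, HasDerivAt f (f₁ τ) τ) (d2 : ∀ τ, HasDerivAt f₁ (f₂ τ) τ)
    (hA : ∀ τ ∈ Set.Icc a b, ‖f τ‖ ≤ A) (hA2 : ∀ τ ∈ Set.Icc a b, ‖f₂ τ‖ ≤ A₂)
    (x y : ℝ) (hx : x ∈ Set.Icc a b) (hy : y ∈ Set.Icc a b) (hxy : |y - x| = h) :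
    ‖f₁ x‖ ≤ 2 * A / h + h * A₂ := by
  have h1 : ∀ s ∈ Set.uIcc x y, ‖f₁ s - f₁ x‖ ≤ A₂ * h := by
    intro s hs
    have hsub : Set.uIcc x y ⊆ Set.Icc a b := Set.uIcc_subset_Icc hx hy
    have := (convex_uIcc x y).norm_image_sub_le_of_norm_hasDerivWithin_le
      (f := f₁) (f' := f₂) (C := A₂) (x := x) (y := s)
      (fun z _ => (d2 z).hasDerivWithinAt) (fun z hz => hA2 z (hsub hz))
      Set.left_mem_uIcc hs
    refine this.trans ?_
    have hA0 : 0 ≤ A₂ := (norm_nonneg _).trans (hA2 x hx)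
    refine mul_le_mul_of_nonneg_left ?_ hA0
    rw [Real.norm_eq_abs, ← hxy]
    exact Set.abs_sub_left_of_mem_uIcc hs
  have h2 := (convex_uIcc x y).norm_image_sub_le_of_norm_hasDerivWithin_le
      (f := fun s => f s - (s : ℂ) * f₁ x) (f' := fun s => f₁ s - f₁ x) (C := A₂ * h)
      (x := x) (y := y)
      (fun z _ => by
        have h3 : HasDerivAt (fun s : ℝ => (s : ℂ) * f₁ x) (1 * f₁ x) z :=
          (Complex.ofRealCLM.hasDerivAt (x := z)).mul_const (f₁ x)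
        have := (d1 z).sub h3
        rw [one_mul] at this
        exact this.hasDerivWithinAt)
      (fun z hz => h1 z hz) Set.left_mem_uIcc Set.right_mem_uIcc
  rw [Real.norm_eq_abs, hxy] at h2
  have h4 : ((y - x : ℝ) : ℂ) * f₁ x = (f y - f x) -
      ((f y - (y : ℂ) * f₁ x) - (f x - (x : ℂ) * f₁ x)) := by
    push_cast; ring
  have h5 : h * ‖f₁ x‖ ≤ 2 * A + A₂ * h * h := by
    calc h * ‖f₁ x‖ = ‖((y - x : ℝ) : ℂ) * f₁ x‖ := by
          rw [norm_mul, Complex.norm_real, Real.norm_eq_abs, hxy]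
      _ ≤ ‖f y - f x‖ + ‖(f y - (y : ℂ) * f₁ x) - (f x - (x : ℂ) * f₁ x)‖ := by
          rw [h4]; exact norm_sub_le _ _
      _ ≤ (‖f y‖ + ‖f x‖) + A₂ * h * h := add_le_add (norm_sub_le _ _) h2
      _ ≤ 2 * A + A₂ * h * h := by linarith [hA x hx, hA y hy]
  have h6 : 2 * A / h + h * A₂ = (2 * A + A₂ * h * h) / h := by
    field_simp
  rw [h6, le_div_iff₀ hh]
  linarith

theorem blan : S_blan := by
  intro a b A A₂ h f f₁ f₂ hh hab d1 d2 hA hA2 τ hτ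
  rcases le_total τ ((a + b) / 2) with hle | hle
  · exact key a b A A₂ h f f₁ f₂ hh d1 d2 hA hA2 τ (τ + h) hτ
      ⟨by linarith [hτ.1], by linarith⟩ (by rw [add_sub_cancel_left, abs_of_pos hh])
  · exact key a b A A₂ h f f₁ f₂ hh d1 d2 hA hA2 τ (τ - h) hτ
      ⟨by linarith, by linarith [hτ.2]⟩ (by
        rw [show τ - h - τ = -h by ring, abs_neg, abs_of_pos hh])

end Pool.Agent.Q225.SL
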