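import Pool.Agent.Q167.SL.StmE
import Pool.Agent.TH41.SC.Fin

/-! Job SL-NUM of project SL (helper167): numerical values. -/

set_option autoImplicit false

open Finset Filter Topology

namespace Pool.Agent.Q225.SL

open Pool.Agent.Q167.SL
open Pool.Agent.TH41.SC (a a_tail a_pos a_summable cc cc_pos b_eq H Φ le_Φ log_bound oddSum evenSum Ψ
  oddSum_eq evenSum_eq Ψ_eq ph_nonneg' ph_le_one')
open Pool.Agent.W48.KS

theorem etaPos : 0 < Real.log (9211 / 2654 : ℝ) := Real.log_pos (by norm_num)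

theorem expEta : Real.exp (-Real.log (9211 / 2654 : ℝ)) = 2654 / 9211 := by
  rw [Real.exp_neg, Real.exp_log (by norm_num)]
  norm_num

/-- sufficient condition for the upper bound -/
theorem lt_of_partial {s : ℝ} (h0 : 0 < s) (h1 : s < 1) (K : ℕ)
    (h : 2 * (2 * (s ^ 2) ^ K / (1 - s ^ 2) ^ 3) < ∑ k ∈ range K,
      (a (s ^ 2) k - 2 * (2 * s ^ (4 * k + 1) / (1 - (s ^ 2) ^ (2 * k + 1)) ^ 2))) :
    2 * ∑' k, a (s ^ 2) k * ph (cc (s ^ 2) (2 * k + 1)) < ∑' k, a (s ^ 2) k := by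
  have h2 : 0 < s ^ 2 := by positivity
  have h3 : s ^ 2 < 1 := pow_lt_one₀ h0.le h1 (by norm_num)
  have hs := a_summable h2 h3
  have hle : ∀ k, a (s ^ 2) k * ph (cc (s ^ 2) (2 * k + 1)) ≤ a (s ^ 2) k := fun k => by
    have := ph_le_one' (cc_pos h2 h3 (2 * k + 1) (by omega))
    have := a_pos h2 h3 k
    nlinarith
  have hb : Summable (fun k => a (s ^ 2) k * ph (cc (s ^ 2) (2 * k + 1))) := by
    refine Summable.of_nonneg_of_le (fun k => mul_nonneg (a_pos h2 h3 k).le (ph_nonneg' _))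
      hle hs
  rw [← hs.sum_add_tsum_nat_add K, ← hb.sum_add_tsum_nat_add K]
  have t1 := a_tail h2 h3 K
  have t2 : ∑' k, a (s ^ 2) (k + K) * ph (cc (s ^ 2) (2 * (k + K) + 1)) ≤
      ∑' k, a (s ^ 2) (k + K) :=
    Summable.tsum_le_tsum (fun k => hle (k + K)) ((summable_nat_add_iff K).2 hb)
      ((summable_nat_add_iff K).2 hs)
  have t3 : 0 ≤ ∑' k, a (s ^ 2) (k + K) := tsum_nonneg fun k => (a_pos h2 h3 _).le
  rw [sum_sub_distrib, ← mul_sum] at h
  have t4 : ∑ k ∈ range K, 2 * s ^ (4 * k + 1) / (1 - (s ^ 2) ^ (2 * k + 1)) ^ 2 =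
      ∑ k ∈ range K, a (s ^ 2) k * ph (cc (s ^ 2) (2 * k + 1)) :=
    sum_congr rfl fun k _ => (b_eq h0 h1 k).symm
  rw [t4] at h
  rw [mul_add]
  linarith

theorem num1 : 2 * ∑' k, a ((2654 / 9211 : ℝ) ^ 2) k * ph (cc ((2654 / 9211 : ℝ) ^ 2) (2 * k + 1)) <
    ∑' k, a ((2654 / 9211 : ℝ) ^ 2) k := by
  refine lt_of_partial (by norm_num) (by norm_num) 9 ?_
  simp only [sum_range_succ, range_zero, sum_empty, a]
  norm_num

theorem num2 : 3966 / 10000 * Real.log 2 < Φ ((2654 / 9211 : ℝ) ^ 2) := by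
  have h := le_Φ (r := (2654 / 9211 : ℝ) ^ 2) (by norm_num) (by norm_num) 4
  refine lt_of_lt_of_le ?_ h
  have l2a := Real.log_two_gt_d9
  have l2b := Real.log_two_lt_d9
  have hl : Real.log ((2654 / 9211 : ℝ) ^ 2) =
      -(4 * Real.log 2) - 2 * Real.log (9211 / 10616) := by
    rw [Real.log_pow, Real.log_div (by norm_num) (by norm_num),
      Real.log_div (by norm_num) (by norm_num), show (10616 : ℝ) = 2 ^ 2 * 2654 by norm_num,
      Real.log_mul (by norm_num) (by norm_num), Real.log_pow]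
    push_cast
    ring
  have m1 := (log_bound (x := 1405 / 10616) (by norm_num) (by norm_num) 9).1
  have m2 := (log_bound (x := 1405 / 10616) (by norm_num) (by norm_num) 9).2
  have L1 := (log_bound (x := (2654 / 9211) ^ 2) (by norm_num) (by norm_num) 7).2
  have L2 := (log_bound (x := ((2654 / 9211) ^ 2) ^ 2) (by norm_num) (by norm_num) 4).1
  have L3 := (log_bound (x := ((2654 / 9211) ^ 2) ^ 3) (by norm_num) (by norm_num) 3).2
  have L4 := (log_bound (x := ((2654 / 9211) ^ 2) ^ 4) (by norm_num) (by norm_num) 2).1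
  have L5 := (log_bound (x := ((2654 / 9211) ^ 2) ^ 5) (by norm_num) (by norm_num) 2).2
  have L6 := (log_bound (x := ((2654 / 9211) ^ 2) ^ 6) (by norm_num) (by norm_num) 1).1
  have L7 := (log_bound (x := ((2654 / 9211) ^ 2) ^ 7) (by norm_num) (by norm_num) 1).2
  have L8 := (log_bound (x := ((2654 / 9211) ^ 2) ^ 8) (by norm_num) (by norm_num) 1).1
  rw [show (1 - 1405 / 10616 : ℝ) = 9211 / 10616 by norm_num] at m1 m2
  have hlog : ∀ n : ℕ, Real.log (((2654 / 9211 : ℝ) ^ 2) ^ n) =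
      n * (-(4 * Real.log 2) - 2 * Real.log (9211 / 10616)) := fun n => by rw [Real.log_pow, hl]
  simp only [sum_range_succ, range_zero, sum_empty, H, hlog]
  simp only [sum_range_succ, range_zero, sum_empty] at m1 m2 L1 L2 L3 L4 L5 L6 L7 L8
  generalize Real.log (9211 / 10616) = m at *
  generalize Real.log 2 = l at *
  norm_num at m1 m2 L1 L2 L3 L4 L5 L6 L7 L8 l2a l2b ⊢
  linarith

theorem num : Pool.Agent.Q167.SL.S_num := by
  constructor
  · have e1 : eS (Real.log (9211 / 2654)) = evenSum (Real.log (9211 / 2654)) := rfl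
    have e2 : oS (Real.log (9211 / 2654)) = oddSum (Real.log (9211 / 2654)) := rfl
    rw [e1, e2, evenSum_eq etaPos, oddSum_eq etaPos, expEta]
    have h := num1
    have hpos : 0 < ∑' k, a ((2654 / 9211 : ℝ) ^ 2) k :=
      (a_summable (by norm_num) (by norm_num)).tsum_pos
        (fun k => (a_pos (by norm_num) (by norm_num) k).le) 0 (a_pos (by norm_num) (by norm_num) 0)
    rw [div_lt_iff₀ (by positivity)]
    nlinarith
  · have e1 : Ph (Real.log (9211 / 2654)) = Ψ (Real.log (9211 / 2654)) := rfl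
    rw [e1, Ψ_eq etaPos, expEta]
    exact num2

end Pool.Agent.Q225.SL
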